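import Pool.Agent.Helper99_TwinIdx.Residues

set_option autoImplicit false

namespace Pool.Agent.Results.MP_ea8352_nt.IndexResidues

/-- `n = k + m` is an admissible decomposition: `k, m >= 1`, `6k-1` and `6k+1` are both prime and
`p_m + 2` is prime, where `p_m = Nat.nth Nat.Prime (m - 1)` is the `m`-th prime. -/
def Adm (n k m : ℕ) : Prop :=
  0 < k ∧ 0 < m ∧ k + m = n ∧ Nat.Prime (6 * k - 1) ∧ Nat.Prime (6 * k + 1) ∧
    Nat.Prime (Nat.nth Nat.Prime (m - 1) + 2)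

/-- A positive answer to Q1 forces the indices `m` of twin primes `p_m` to be spread modulo every
`W`: for each `W >= 1` and each residue `r`, the indices `m <= N` with `p_m + 2` prime and
`36 (r - m)^2 - 1` coprime to `W` number at least `(c/W) (log N)^2`, and this number times the
number of `k <= N` with `6k-1, 6k+1` prime is at least `(1/W - δ) N`, for all large `N`. -/
theorem result : ∃ c : ℝ, 0 < c ∧ ((∀ n : ℕ, 2 < n → ∃ k m : ℕ, Adm n k m) →
    ∀ W : ℕ, 0 < W → ∀ r : ℤ, ∀ δ : ℝ, 0 < δ → ∃ N₀ : ℕ, ∀ N : ℕ, N₀ ≤ N →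
      (1 / W - δ) * N ≤
        ({k : ℕ | 0 < k ∧ k ≤ N ∧ Nat.Prime (6 * k - 1) ∧ Nat.Prime (6 * k + 1)}.ncard : ℝ) *
        ({m : ℕ | 0 < m ∧ m ≤ N ∧ Nat.Prime (Nat.nth Nat.Prime (m - 1) + 2) ∧
          Int.gcd (36 * (r - m) ^ 2 - 1) W = 1}.ncard : ℝ) ∧
      c / W * Real.log N ^ 2 ≤
        ({m : ℕ | 0 < m ∧ m ≤ N ∧ Nat.Prime (Nat.nth Nat.Prime (m - 1) + 2) ∧
          Int.gcd (36 * (r - m) ^ 2 - 1) W = 1}.ncard : ℝ)) :=
  Pool.Agent.Helper99_TwinIdx.residues_main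

end Pool.Agent.Results.MP_ea8352_nt.IndexResidues
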