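import Pool.Agent.Helper20_Rom.Out2

set_option autoImplicit false

namespace Pool.Agent.Results.MP_ea8352_nt.ManySums

/-- `n = k + m` is an admissible decomposition: `k, m >= 1`, `6k-1` and `6k+1` are both prime and
`p_m + 2` is prime, where `p_m = Nat.nth Nat.Prime (m - 1)` is the `m`-th prime. -/
def Adm (n k m : ℕ) : Prop :=
  0 < k ∧ 0 < m ∧ k + m = n ∧ Nat.Prime (6 * k - 1) ∧ Nat.Prime (6 * k + 1) ∧
    Nat.Prime (Nat.nth Nat.Prime (m - 1) + 2)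

/-- Let `A` be the number of `k <= N` with `6k-1`, `6k+1` prime and `B` the number of `m <= N` with
`p_m + 2` prime.  For all large `N` one has `1 <= A <= B`, at least
`c A^2 (log N)^4 / (N (log (2 + log (N / B)))^2)` of the integers `n <= 2N` have at least
`A B / (4N)` (half of the average) admissible decompositions, and at least
`c A^2 (log N)^4 / (N (log log log N)^2)` of them have an admissible decomposition. -/
theorem result : ∃ c : ℝ, 0 < c ∧ ∃ N₀ : ℕ, ∀ N : ℕ, N₀ ≤ N → ∀ A B : ℝ,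
    A = ({k : ℕ | 0 < k ∧ k ≤ N ∧ Nat.Prime (6 * k - 1) ∧ Nat.Prime (6 * k + 1)}.ncard : ℝ) →
    B = ({m : ℕ | 0 < m ∧ m ≤ N ∧ Nat.Prime (Nat.nth Nat.Prime (m - 1) + 2)}.ncard : ℝ) →
    1 ≤ A ∧ A ≤ B ∧
    c * (A ^ 2 * Real.log N ^ 4 / (N * Real.log (2 + Real.log (N / B)) ^ 2)) ≤
      ({n : ℕ | 1 ≤ n ∧ n ≤ 2 * N ∧
        A * B / (4 * N) ≤ ({km : ℕ × ℕ | Adm n km.1 km.2}.ncard : ℝ)}.ncard : ℝ) ∧
    c * (A ^ 2 * Real.log N ^ 4 / (N * Real.log (Real.log (Real.log N)) ^ 2)) ≤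
      ({n : ℕ | 1 ≤ n ∧ n ≤ 2 * N ∧ ∃ k m : ℕ, Adm n k m}.ncard : ℝ) :=
  Pool.Agent.Helper20_Rom.out2

end Pool.Agent.Results.MP_ea8352_nt.ManySums
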