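import Pool.Agent.Helper75_TI.Gap

set_option autoImplicit false

/-!
# A positive answer forces twin primes between `x` and `λ x log x`, for every `λ > 1/6`
-/

namespace Pool.Agent.Results.MP_ea8352_nt.TwinGaps

open Pool.Agent.Helper75_TI

/-- `n = k + m` is an admissible decomposition: `k, m >= 1`, `6k-1` and `6k+1` are both prime and
`p_m + 2` is prime, where `p_m = Nat.nth Nat.Prime (m - 1)` is the `m`-th prime. -/
def Adm (n k m : ℕ) : Prop :=
  0 < k ∧ 0 < m ∧ k + m = n ∧ Nat.Prime (6 * k - 1) ∧ Nat.Prime (6 * k + 1) ∧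
    Nat.Prime (Nat.nth Nat.Prime (m - 1) + 2)

/-- The number of twin prime pairs `p, p + 2` with `a < p <= b`. -/
noncomputable def twins (a b : ℝ) : ℕ :=
  {p : ℕ | a < p ∧ (p : ℝ) ≤ b ∧ p.Prime ∧ (p + 2).Prime}.ncard

/-- Let `lam > 1/6`. There are `c > 0` and `x₀` such that for all `x >= x₀`: if all integers
`2 < n <= lam x` have an admissible decomposition, then the number `t` of twin prime pairs with
`x < p <= lam x log x` and the number `T` of twin prime pairs with `p <= x` satisfy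
`c x <= t (2 T + t)` and `c (log x)² <= t`. -/
theorem result (lam : ℝ) (hlam : 1 / 6 < lam) : ∃ c : ℝ, 0 < c ∧ ∃ x₀ : ℕ, ∀ x : ℕ, x₀ ≤ x →
    (∀ n : ℕ, 2 < n → (n : ℝ) ≤ lam * x → ∃ k m : ℕ, Adm n k m) →
    c * x ≤ (twins x (lam * x * Real.log x) : ℝ) *
        (2 * (twins 0 x : ℝ) + (twins x (lam * x * Real.log x) : ℝ)) ∧
      c * Real.log x ^ 2 ≤ (twins x (lam * x * Real.log x) : ℝ) := by
  obtain ⟨c, hc, x₀, h⟩ := gap lam hlam
  refine ⟨c, hc, max x₀ 1, fun x hx hrep => ?_⟩
  have hx1 : 1 ≤ x := le_trans (le_max_right _ _) hx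
  have h1 := h x (le_trans (le_max_left _ _) hx) hrep
  have hlog : 0 ≤ Real.log (x : ℝ) := Real.log_nonneg (by exact_mod_cast hx1)
  have hY : 0 ≤ lam * x * Real.log x := by
    have : 0 < lam := by linarith
    positivity
  have e1 : twins x (lam * x * Real.log x) = (Tn x ⌊lam * x * Real.log x⌋₊).card := by
    unfold twins
    rw [← Set.ncard_coe_finset]
    congr 1
    ext p
    unfold Tn
    rw [Finset.mem_coe, Finset.mem_filter, Finset.mem_range, Nat.lt_succ_iff, Nat.le_floor_iff hY]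
    constructor
    · rintro ⟨h2, h3, h4⟩
      exact ⟨h3, by exact_mod_cast h2, h4⟩
    · rintro ⟨h2, h3, h4⟩
      exact ⟨by exact_mod_cast h3, h2, h4⟩
  have e2 : twins 0 x = (Tw x).card := by
    unfold twins
    rw [← Set.ncard_coe_finset]
    congr 1
    ext p
    unfold Tw
    rw [Finset.mem_coe, Finset.mem_filter, Finset.mem_range]
    constructor
    · rintro ⟨h2, h3, h4⟩
      have : p ≤ x := by exact_mod_cast h3
      exact ⟨by omega, h4⟩
    · rintro ⟨h2, h3, h4⟩
      refine ⟨by exact_mod_cast h3.pos, ?_, h3, h4⟩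
      exact_mod_cast (by omega : p ≤ x)
  rw [e1, e2]
  exact h1

end Pool.Agent.Results.MP_ea8352_nt.TwinGaps
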