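import Pool.Agent.Helper99_TwinIdx.Main

set_option autoImplicit false

namespace Pool.Agent.Results.MP_ea8352_nt.TypicalDecompositions

/-- `n = k + m` is an admissible decomposition: `k, m >= 1`, `6k-1` and `6k+1` are both prime and
`p_m + 2` is prime, where `p_m = Nat.nth Nat.Prime (m - 1)` is the `m`-th prime. -/
def Adm (n k m : ℕ) : Prop :=
  0 < k ∧ 0 < m ∧ k + m = n ∧ Nat.Prime (6 * k - 1) ∧ Nat.Prime (6 * k + 1) ∧
    Nat.Prime (Nat.nth Nat.Prime (m - 1) + 2)

/-- For every `ε > 0` and all large `N`, all but at most `ε N` of the integers `n <= N` are such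
that every admissible decomposition `n = k + m` has `k >= (ε/C) log N (log log N)^2` and
`m >= (ε/C) (log N)^2 log log N`, and `n` has at most `(C/ε) N / (log N)^3` of them. -/
theorem result : ∃ C : ℝ, 0 < C ∧ ∀ ε : ℝ, 0 < ε → ∃ N₀ : ℕ, ∀ N : ℕ, N₀ ≤ N →
    ({n : ℕ | 1 ≤ n ∧ n ≤ N ∧
      ¬ ((∀ k m : ℕ, Adm n k m →
            ε / C * (Real.log N * Real.log (Real.log N) ^ 2) ≤ k ∧
            ε / C * (Real.log N ^ 2 * Real.log (Real.log N)) ≤ m) ∧
          (({km : ℕ × ℕ | Adm n km.1 km.2}.ncard : ℝ) ≤ C / ε * (N / Real.log N ^ 3)))}.ncard : ℝ)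
      ≤ ε * N :=
  Pool.Agent.Helper99_TwinIdx.main

end Pool.Agent.Results.MP_ea8352_nt.TypicalDecompositions
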